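import Mathlib

/-!
# Maximum oriented forcing number of graphs close to comparability graphs (MP_ad37e1_co)

Let `G` be a finite graph with `n` vertices and `W` a set of vertices such that `G - W` is a
comparability graph (has a transitive orientation). Then `MOF(G) ≥ n - |W| - μ(G - W)`.
Consequences: `MOF(G) ≥ n / 2` if `G` is a comparability graph, and also if `n` is even and `G - v` is a
comparability graph for some vertex `v`.
-/

set_option autoImplicit false

namespace Pool.Agent.Results.MP_ad37e1_co.NearComparability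

variable {V : Type} [Fintype V]

/-- `D` is an orientation of `G`: every edge becomes exactly one of the two arcs. -/
def IsOrientation (G : SimpleGraph V) (D : V → V → Prop) : Prop :=
  (∀ u v, G.Adj u v ↔ (D u v ∨ D v u)) ∧ ∀ u v, D u v → ¬ D v u

/-- The coloured vertices after `t` steps of the colour change rule, all possible forcings of a step
being done simultaneously: a coloured vertex with exactly one non-coloured out-neighbour colours it. -/
def col (D : V → V → Prop) (S : Set V) : ℕ → Set V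
  | 0 => S
  | t + 1 => col D S t ∪ {v | ∃ u ∈ col D S t, D u v ∧ v ∉ col D S t ∧
      ∀ w, D u w → w ∉ col D S t → w = v}

/-- `S` is a forcing set: nonempty, and at the end every vertex is coloured. -/
def IsForcing (D : V → V → Prop) (S : Set V) : Prop := S.Nonempty ∧ ∃ t, col D S t = Set.univ

/-- The oriented forcing number `F(D)`. -/
noncomputable def F (D : V → V → Prop) : ℕ := sInf {k | ∃ S : Set V, IsForcing D S ∧ S.ncard = k}

/-- `MOF(G)`, the maximum of `F(D)` over all orientations `D` of `G`. -/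
noncomputable def MOF (G : SimpleGraph V) : ℕ :=
  sSup {k | ∃ D : V → V → Prop, IsOrientation G D ∧ F D = k}

/-- `M` is a set of pairwise disjoint edges of `G - W`. -/
def IsMatch (G : SimpleGraph V) (W : Set V) (M : Finset (Sym2 V)) : Prop :=
  (∀ e ∈ M, e ∈ G.edgeSet ∧ ∀ x ∈ e, x ∉ W) ∧ ∀ e ∈ M, ∀ e' ∈ M, e ≠ e' → ∀ x ∈ e, x ∉ e'

/-- The matching number of `G - W`. -/
noncomputable def mu (G : SimpleGraph V) (W : Set V) : ℕ :=
  sSup {k | ∃ M, IsMatch G W M ∧ M.card = k}

/-- `G - W` has a transitive orientation. -/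
def ComparabilityOff (G : SimpleGraph V) (W : Set V) : Prop :=
  ∃ R : V → V → Prop, (∀ u v, u ∉ W → v ∉ W → (G.Adj u v ↔ (R u v ∨ R v u))) ∧
    (∀ u v, u ∉ W → v ∉ W → R u v → ¬ R v u) ∧
    ∀ u v w, u ∉ W → v ∉ W → w ∉ W → R u v → R v w → R u w

lemma col_mono (D : V → V → Prop) (S : Set V) {s t : ℕ} (h : s ≤ t) : col D S s ⊆ col D S t := by
  induction h with
  | refl => exact subset_rfl
  | step _ ih => exact ih.trans Set.subset_union_left

lemma match_le (G : SimpleGraph V) (W : Set V) {M : Finset (Sym2 V)} (hM : IsMatch G W M) :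
    M.card ≤ mu G W := by
  classical
  refine le_csSup ⟨Fintype.card (Sym2 V), ?_⟩ ⟨M, hM, rfl⟩
  rintro k ⟨M', _, rfl⟩
  exact Finset.card_le_univ M'

lemma univ_forcing [Nonempty V] (D : V → V → Prop) : IsForcing D Set.univ :=
  ⟨Set.univ_nonempty, 0, rfl⟩

lemma F_le [Nonempty V] (D : V → V → Prop) : F D ≤ Fintype.card V := by
  refine Nat.sInf_le ⟨Set.univ, univ_forcing D, ?_⟩
  rw [Set.ncard_univ, Nat.card_eq_fintype_card]

lemma F_le_MOF [Nonempty V] (G : SimpleGraph V) {D : V → V → Prop} (hD : IsOrientation G D) :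
    F D ≤ MOF G := by
  refine le_csSup ⟨Fintype.card V, ?_⟩ ⟨D, hD, rfl⟩
  rintro k ⟨D', _, rfl⟩
  exact F_le D'

/-- The forcings from `W` are at most `|W|`, the others form a matching of `G - W`. -/
lemma forcing_bound (G : SimpleGraph V) (D : V → V → Prop) (W : Set V) (hD : IsOrientation G D)
    (hW : ∀ u v, u ∉ W → D u v → v ∉ W)
    (htr : ∀ u v w, u ∉ W → v ∉ W → w ∉ W → D u v → D v w → D u w) (S : Set V)
    (hS : IsForcing D S) : Fintype.card V ≤ S.ncard + W.ncard + mu G W := by
  classical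
  obtain ⟨_, T, hT⟩ := hS
  have hex : ∀ v : V, v ∉ S → ∃ (t : ℕ) (u : V), u ∈ col D S t ∧ v ∉ col D S t ∧
      v ∈ col D S (t + 1) ∧ D u v ∧ ∀ w, D u w → w ∉ col D S t → w = v := by
    intro v hv
    have h1 : ∃ t, v ∈ col D S t := ⟨T, by rw [hT]; trivial⟩
    have h2 := Nat.find_spec h1
    have h3 : Nat.find h1 ≠ 0 := by
      intro h0
      rw [h0] at h2
      exact hv h2
    obtain ⟨t, ht⟩ := Nat.exists_eq_succ_of_ne_zero h3
    have h4 : v ∉ col D S t := Nat.find_min h1 (by omega)
    rw [ht] at h2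
    have h5 : v ∈ col D S (t + 1) := h2
    rcases h2 with h2 | ⟨u, hu, h6, _, h7⟩
    · exact absurd h2 h4
    · exact ⟨t, u, hu, h4, h5, h6, h7⟩
  choose! τ f hf1 hf2 hf3 hf4 hf5 using hex
  have hirr : ∀ v, ¬ D v v := fun v h => hD.2 v v h h
  have hlt : ∀ v w, v ∉ S → w ∉ S → v ∈ col D S (τ w) → τ v < τ w := by
    intro v w hv _ h
    by_contra h1
    push Not at h1
    exact hf2 v hv (col_mono D S h1 h)
  have hinj : ∀ v w, v ∉ S → w ∉ S → f v = f w → v = w := by
    intro v w hv hw h
    rcases le_total (τ v) (τ w) with h1 | h1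
    · have h2 : w ∉ col D S (τ v) := fun h3 => hf2 w hw (col_mono D S h1 h3)
      exact (hf5 v hv w (h ▸ hf4 w hw) h2).symm
    · have h2 : v ∉ col D S (τ w) := fun h3 => hf2 v hv (col_mono D S h1 h3)
      exact hf5 w hw v (h ▸ hf4 v hv) h2
  have hno : ∀ v w, v ∉ S → w ∉ S → f v ∉ W → f w ≠ v := by
    intro v w hv hw hvW h
    have h0 : v ∉ W := hW _ _ hvW (hf4 v hv)
    have h1 : τ v < τ w := hlt v w hv hw (h ▸ hf1 w hw)
    have h2 : w ∉ col D S (τ v) := fun h3 => hf2 w hw (col_mono D S h1.le h3)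
    have h3 : D v w := h ▸ hf4 w hw
    have h4 := hf5 v hv w (htr _ _ _ hvW h0 (hW _ _ h0 h3) (hf4 v hv) h3) h2
    rw [h4] at h3
    exact hirr v h3
  let A : Finset V := Finset.univ.filter (fun v => v ∉ S ∧ f v ∉ W)
  let B : Finset V := Finset.univ.filter (fun v => v ∉ S ∧ f v ∈ W)
  let g : V → Sym2 V := fun v => s(f v, v)
  have hA : ∀ v, v ∈ A ↔ v ∉ S ∧ f v ∉ W := fun v => by simp [A]
  have hB : ∀ v, v ∈ B ↔ v ∉ S ∧ f v ∈ W := fun v => by simp [B]
  have hBc : B.card ≤ W.ncard := by
    rw [Set.ncard_eq_toFinset_card' W]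
    refine Finset.card_le_card_of_injOn f ?_ ?_
    · intro v hv
      have := ((hB v).1 hv).2
      simpa using this
    · intro v hv w hw h
      exact hinj v w ((hB v).1 hv).1 ((hB w).1 hw).1 h
  have hginj : Set.InjOn g A := by
    intro v hv w hw h
    have hv' := (hA v).1 hv
    have hw' := (hA w).1 hw
    rcases Sym2.eq_iff.1 h with ⟨_, h2⟩ | ⟨h1, _⟩
    · exact h2
    · exact absurd h1 (hno w v hw'.1 hv'.1 hw'.2)
  have hM : IsMatch G W (A.image g) := by
    refine ⟨?_, ?_⟩
    · intro e he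
      obtain ⟨v, hv, rfl⟩ := Finset.mem_image.1 he
      have hv' := (hA v).1 hv
      refine ⟨(hD.1 _ _).2 (Or.inl (hf4 v hv'.1)), ?_⟩
      intro x hx
      rcases Sym2.mem_iff.1 hx with h1 | h1
      · rw [h1]; exact hv'.2
      · rw [h1]; exact hW _ _ hv'.2 (hf4 v hv'.1)
    · intro e he e' he' hne x hx hx'
      obtain ⟨v, hv, rfl⟩ := Finset.mem_image.1 he
      obtain ⟨w, hw, rfl⟩ := Finset.mem_image.1 he'
      have hv' := (hA v).1 hv
      have hw' := (hA w).1 hw
      apply hne
      have hvw : v = w := by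
        rcases Sym2.mem_iff.1 hx with h1 | h1 <;> rcases Sym2.mem_iff.1 hx' with h2 | h2
        · exact hinj v w hv'.1 hw'.1 (h1.symm.trans h2)
        · exact absurd (h1.symm.trans h2) (hno w v hw'.1 hv'.1 hw'.2)
        · exact absurd (h2.symm.trans h1) (hno v w hv'.1 hw'.1 hv'.2)
        · exact h1.symm.trans h2
      rw [hvw]
  have h1 := match_le G W hM
  rw [Finset.card_image_of_injOn hginj] at h1
  have h2 : (A ∪ B).card + S.ncard = Fintype.card V := by
    have h3 : ((A ∪ B : Finset V) : Set V) = Sᶜ := by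
      ext v
      simp only [Finset.coe_union, Set.mem_union, Finset.mem_coe, hA, hB, Set.mem_compl_iff]
      tauto
    have h4 := Set.ncard_add_ncard_compl S
    rw [← h3, Set.ncard_coe_finset, Nat.card_eq_fintype_card] at h4
    omega
  have h5 := Finset.card_union_le A B
  omega

/-- Twice the matching number of `G - W` is at most the number of its vertices. -/
lemma two_mu (G : SimpleGraph V) (W : Set V) : 2 * mu G W + W.ncard ≤ Fintype.card V := by
  classical
  have hne : {k | ∃ M, IsMatch G W M ∧ M.card = k}.Nonempty :=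
    ⟨0, ∅, ⟨by simp, by simp⟩, rfl⟩
  have hbd : BddAbove {k | ∃ M, IsMatch G W M ∧ M.card = k} := by
    refine ⟨Fintype.card (Sym2 V), ?_⟩
    rintro k ⟨M', _, rfl⟩
    exact Finset.card_le_univ M'
  obtain ⟨M, hM, hk⟩ := Nat.sSup_mem hne hbd
  have h1 : mu G W = M.card := hk.symm
  rw [h1]
  have h2 : (M.biUnion fun e => Finset.univ.filter (fun x => x ∈ e)).card =
      ∑ e ∈ M, (Finset.univ.filter (fun x => x ∈ e)).card := by
    refine Finset.card_biUnion ?_
    intro e he e' he' hne'
    show Disjoint (Finset.univ.filter (fun x => x ∈ e)) (Finset.univ.filter (fun x => x ∈ e'))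
    rw [Finset.disjoint_left]
    intro x hx hx'
    exact hM.2 e he e' he' hne' x (Finset.mem_filter.1 hx).2 (Finset.mem_filter.1 hx').2
  have h3 : ∀ e ∈ M, (Finset.univ.filter (fun x => x ∈ e)).card = 2 := by
    intro e he
    have he' := (hM.1 e he).1
    induction e using Sym2.ind with
    | _ a b =>
      have hab : a ≠ b := G.ne_of_adj he'
      have : (Finset.univ.filter (fun x => x ∈ s(a, b))) = {a, b} := by
        ext x; simp
      rw [this, Finset.card_pair hab]
  rw [Finset.sum_congr rfl h3, Finset.sum_const, smul_eq_mul] at h2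
  have h4 : (M.biUnion fun e => Finset.univ.filter (fun x => x ∈ e)).card ≤ (Wᶜ).ncard := by
    rw [Set.ncard_eq_toFinset_card']
    refine Finset.card_le_card ?_
    intro x hx
    obtain ⟨e, he, hxe⟩ := Finset.mem_biUnion.1 hx
    have := (hM.1 e he).2 x (Finset.mem_filter.1 hxe).2
    simpa using this
  have h5 := Set.ncard_add_ncard_compl W
  rw [Nat.card_eq_fintype_card] at h5
  omega

lemma main_bound [Nonempty V] (G : SimpleGraph V) (W : Set V) (hG : ComparabilityOff G W) :
    Fintype.card V ≤ MOF G + W.ncard + mu G W := by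
  classical
  obtain ⟨R, hR1, hR2, hR3⟩ := hG
  let φ : V ≃ Fin (Fintype.card V) := Fintype.equivFin V
  let D : V → V → Prop := fun u v =>
    (u ∉ W ∧ v ∉ W ∧ R u v) ∨ (u ∈ W ∧ v ∉ W ∧ G.Adj u v) ∨
      (u ∈ W ∧ v ∈ W ∧ G.Adj u v ∧ φ u < φ v)
  have hD : IsOrientation G D := by
    refine ⟨?_, ?_⟩
    · intro u v
      by_cases hu : u ∈ W <;> by_cases hv : v ∈ W
      · simp only [D, hu, hv, not_true_eq_false, false_and, true_and, false_or, G.adj_comm v u]
        constructor
        · intro h
          have hne : φ u ≠ φ v := fun h' => G.ne_of_adj h (φ.injective h')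
          rcases lt_or_gt_of_ne hne with h1 | h1
          · exact Or.inl ⟨h, h1⟩
          · exact Or.inr ⟨h, h1⟩
        · rintro (h | h) <;> exact h.1
      · simp only [D, hu, hv, not_true_eq_false, not_false_eq_true, false_and, true_and, false_or,
          or_false]
      · simp only [D, hu, hv, not_true_eq_false, not_false_eq_true, false_and, true_and, false_or,
          or_false, G.adj_comm v u]
      · simp only [D, hu, hv, not_false_eq_true, false_and, true_and, or_false]
        exact hR1 u v hu hv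
    · intro u v h1 h2
      rcases h1 with ⟨a, b, c⟩ | ⟨a, b, c⟩ | ⟨a, b, c, d⟩ <;>
        rcases h2 with ⟨a', b', c'⟩ | ⟨a', b', c'⟩ | ⟨a', b', c', d'⟩
      · exact hR2 u v a b c c'
      · exact b a'
      · exact b a'
      · exact b' a
      · exact b a'
      · exact b a'
      · exact a' b
      · exact b' a
      · exact lt_asymm d d'
  have hW : ∀ u v, u ∉ W → D u v → v ∉ W := by
    rintro u v hu (⟨_, b, _⟩ | ⟨a, _, _⟩ | ⟨a, _, _⟩)
    · exact b
    · exact absurd a hu
    · exact absurd a hu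
  have htr : ∀ u v w, u ∉ W → v ∉ W → w ∉ W → D u v → D v w → D u w := by
    intro u v w hu hv hw h1 h2
    rcases h1 with ⟨_, _, c⟩ | ⟨a, _, _⟩ | ⟨a, _, _⟩
    · rcases h2 with ⟨_, _, c'⟩ | ⟨a, _, _⟩ | ⟨a, _, _⟩
      · exact Or.inl ⟨hu, hw, hR3 u v w hu hv hw c c'⟩
      · exact absurd a hv
      · exact absurd a hv
    · exact absurd a hu
    · exact absurd a hu
  have h1 : {k | ∃ S : Set V, IsForcing D S ∧ S.ncard = k}.Nonempty :=
    ⟨_, Set.univ, univ_forcing D, rfl⟩
  obtain ⟨S, hS, hk⟩ := Nat.sInf_mem h1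
  have h2 := forcing_bound G D W hD hW htr S hS
  have h3 : S.ncard = F D := hk
  have h4 := F_le_MOF G hD
  omega

/-- **Main theorem.** (1) `MOF(G) ≥ n - |W| - μ(G - W)` if `G - W` is a comparability graph;
(2) `MOF(G) ≥ n / 2` if `G` is a comparability graph; (3) `MOF(G) ≥ n / 2` if `n` is even and `G - v` is
a comparability graph for some vertex `v`. -/
theorem result (V : Type) [Fintype V] [Nonempty V] (G : SimpleGraph V) :
    (∀ W : Set V, ComparabilityOff G W → Fintype.card V ≤ MOF G + W.ncard + mu G W) ∧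
    (ComparabilityOff G ∅ → Fintype.card V ≤ 2 * MOF G) ∧
    ∀ v : V, Even (Fintype.card V) → ComparabilityOff G {v} → Fintype.card V ≤ 2 * MOF G := by
  refine ⟨fun W hW => main_bound G W hW, ?_, ?_⟩
  · intro h
    have h1 := main_bound G ∅ h
    have h2 := two_mu G ∅
    rw [Set.ncard_empty] at h1 h2
    omega
  · rintro v ⟨k, hk⟩ h
    have h1 := main_bound G {v} h
    have h2 := two_mu G {v}
    rw [Set.ncard_singleton] at h1 h2
    omega

end Pool.Agent.Results.MP_ad37e1_co.NearComparability
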